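import Pool.Agent.Work.MP_913e71_al.Pos.MainB

namespace Pool.Agent.Results.MP_913e71_al.DiscretePower

open Pool.Agent.Work.MP_913e71_al

theorem result (G : Type) [Group G] (hG : Group.IsVirtuallyNilpotent G) (S : Finset G)
    (hS : Subgroup.closure (S : Set G) = ⊤) :
    ∃ (D : ℕ) (h : ℚ), 0 ≤ h ∧
      (Dom (ballCard (S : Set G)) (fun r => ENNReal.ofReal (r ^ D)) ∧
        Dom (fun r => ENNReal.ofReal (r ^ D)) (ballCard (S : Set G))) ∧
      (Dom (sysIndex (S : Set G)) (fun r => ENNReal.ofReal (r ^ ((D : ℝ) + h))) ∧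
        Dom (fun r => ENNReal.ofReal (r ^ ((D : ℝ) + h))) (sysIndex (S : Set G))) :=
  Pos.main_discrete G hG S hS

end Pool.Agent.Results.MP_913e71_al.DiscretePower
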