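import Pool.Agent.Work.MP_913e71_al.Pos.MainL

namespace Pool.Agent.Results.MP_913e71_al.LiePower

open MeasureTheory Pool.Agent.Work.MP_913e71_al

theorem result (m : ℕ) (g : Submodule ℝ (Matrix (Fin m) (Fin m) ℝ))
    (hup : ∀ x ∈ g, ∀ i j, j ≤ i → x i j = 0) (hg : ∀ x ∈ g, ∀ y ∈ g, x * y - y * x ∈ g)
    (H : Type) [Group H] [TopologicalSpace H] [IsTopologicalGroup H] [MeasurableSpace H]
    [BorelSpace H] (φ : H →* Matrix (Fin m) (Fin m) ℝ) (hφ : Topology.IsEmbedding φ)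
    (hr : Set.range φ = NormedSpace.exp '' (g : Set (Matrix (Fin m) (Fin m) ℝ)))
    (hΓ : ∃ Γ : Subgroup H, IsCocompactLattice Γ) (S : Set H) (hc : IsCompact S)
    (hS : Subgroup.closure S = ⊤) (μ : Measure H) [μ.IsHaarMeasure] :
    (∀ Γ : Subgroup H, DiscreteTopology Γ → HasFundamentalDomain Γ H μ) ∧
    ∃ (D : ℕ) (h : ℚ), 0 ≤ h ∧
      (Dom (ballVol S μ) (fun r => ENNReal.ofReal (r ^ D)) ∧
        Dom (fun r => ENNReal.ofReal (r ^ D)) (ballVol S μ)) ∧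
      (Dom (sysGrowth S μ) (fun r => ENNReal.ofReal (r ^ ((D : ℝ) + h))) ∧
        Dom (fun r => ENNReal.ofReal (r ^ ((D : ℝ) + h))) (sysGrowth S μ)) :=
  Pos.main_lie m g hup hg H φ hφ hr hΓ S hc hS μ

end Pool.Agent.Results.MP_913e71_al.LiePower
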