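import Pool.Agent.Work.MP_913e71_al.Main

namespace Pool.Agent.Results.MP_913e71_al.NoPower

open MeasureTheory Pool.Agent.Work.MP_913e71_al
open scoped ENNReal

theorem result : ∃ (H : Type) (_ : Group H) (_ : TopologicalSpace H) (_ : IsTopologicalGroup H)
    (_ : LocallyCompactSpace H) (_ : T2Space H) (_ : SecondCountableTopology H)
    (_ : MeasurableSpace H) (_ : BorelSpace H),
    Group.IsNilpotent H ∧ (∃ S : Set H, IsCompact S ∧ Subgroup.closure S = ⊤) ∧
    (∃ Γ : Subgroup H, IsCocompactLattice Γ) ∧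
    ∀ S : Set H, IsCompact S → Subgroup.closure S = ⊤ → ∀ μ : Measure H, μ.IsHaarMeasure →
      PolyGrowth S μ ∧
      (∀ Γ : Subgroup H, DiscreteTopology Γ → HasFundamentalDomain Γ H μ) ∧
      (∀ r : ℝ, sysGrowth S μ r < ∞) ∧
      ∀ β : ℝ, ¬ (Dom (sysGrowth S μ) (fun r => ENNReal.ofReal (r ^ β)) ∧
        Dom (fun r => ENNReal.ofReal (r ^ β)) (sysGrowth S μ)) :=
  ⟨G, inferInstance, inferInstance, inferInstance, inferInstance, inferInstance, inferInstance,
    inferInstance, inferInstance, G_isNilpotent, ⟨Box 1, isCompact_Box 1, closure_Box_one⟩,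
    ⟨_, (upper_lattice 0).choose_spec.1⟩, fun S hc hS μ _ =>
      ⟨(main S hc hS μ).1, fun Γ _ => ⟨exists_fundamentalDomain Γ μ⟩, (main S hc hS μ).2⟩⟩

end Pool.Agent.Results.MP_913e71_al.NoPower
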